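import Mathlib

/-!
# Project IV (helper63), MP_32cd73_al (specialist): the proportions of involutions of finite groups are nowhere dense

THEOREM. Let `I ⊂ [0, 1]` be the set of the proportions `i(G)` of involutions of the finite groups `G`. The closure of `I` is
countable. So `I` is nowhere dense, in particular not dense in `[0, 1/2]` (a full, negative answer to Q1).

PROOF. Let `j(G) = #{x | x² = 1} / |G| ≥ 1 / c`. (CP) `#{x | x² = 1}² ≤ #{commuting pairs}`. (NEU) P. M. Neumann: a normal subgroup of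
bounded index all of whose elements have boundedly many conjugates; (BFC) its commutator subgroup is bounded; (STR) so there is a normal
subgroup `H` of bounded index with `H'` bounded and central in `H`. (CNT) in a coset of `H` the solutions of `x² = 1` are `x₀ h`, `h` inverted
by the conjugation with `x₀`: the proportion is `1 / n` times the average of boundedly many quadratic characters (QS), whose mean
values are `0` or Gauss sums: sums of `m` roots of unity of bounded order divided by `m`, of absolute value `1 / √m`; they form a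
countable compact set (W). (J), (FIN): finite sums.
-/

set_option autoImplicit false

namespace Pool.Agent.J4H63.IV

open scoped Classical

/-- the number of the `x` with `x² = 1` -/
noncomputable def nI (G : Type) [Group G] : ℕ := Nat.card {x : G // x * x = 1}

/-- JOB CP. PROOF. For `g ∈ G` the pairs `(x, y)` with `x² = y² = 1`, `x y = g` are given by `x`, and `x g x⁻¹ = y x = g⁻¹`; so `x ↦ x₀⁻¹ x` (`x₀` one of
them) is an injection into the centralizer of `g`. Sum over `g`: `(nI G)² = ∑_g #{...} ≤ ∑_g |C(g)|`. -/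
def S_CP : Prop := ∀ (G : Type) [Group G] [Finite G],
  (nI G) ^ 2 ≤ Nat.card {p : G × G // p.1 * p.2 = p.2 * p.1}

/-- JOB NEU. PROOF. `X = {x | |G : C(x)| ≤ 2 c}`: `|G|²/c ≤ ∑ |C(x)| ≤ |X| |G| + |G|²/(2c)`, so `|X| ≥ |G|/(2c)`. `H = ⟨X⟩` is normal
(`X` is closed under conjugation and inverses, `1 ∈ X`), `|G : H| ≤ 2c`. If `x_i ∈ X^(3i+1) \ X^(3i)` for `i = 0, …, k - 1` (a new element in each step), the sets
`x_i X ⊆ X^(3i+2) \ X^(3i-1)` are disjoint, so `k ≤ 2c`; hence `H = X^(6c+3)`, and `|G : C(x₁ ⋯ x_m)| ≤ ∏ |G : C(x_i)| ≤ (2c)^m`. -/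
def S_NEU : Prop := ∀ c : ℕ, ∃ b : ℕ, ∀ (G : Type) [Group G] [Finite G],
  (Nat.card G) ^ 2 ≤ c * Nat.card {p : G × G // p.1 * p.2 = p.2 * p.1} →
  ∃ H : Subgroup G, H.Normal ∧ H.index ≤ b ∧ ∀ h ∈ H, (Subgroup.centralizer {h}).index ≤ b

/-- JOB BFC (B. H. Neumann, Wiegold). PROOF. Let `a` have the largest number `n ≤ b` of conjugates, `a^(t_1), …, a^(t_n)` (`a^t = t⁻¹ a t`),
`C` = intersection of the centralizers of the `t_i`, of index `≤ b^b`. For `x ∈ C` the `n` elements `(a x)^(t_i) = a^(t_i) x` are all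
conjugates of `a x`, so for `h ∈ H` `(a x)^h = a^(t_i) x` for some `i`, and `x^h x⁻¹ = (a^h)⁻¹ a^(t_i)` is one of `≤ n²` elements. For general
`y = s x`, `s` one of the `≤ b^b` coset representatives: `y⁻¹ y^h = x⁻¹ (s⁻¹ s^h) x (x⁻¹ x^h)`, and `x⁻¹ (s⁻¹ s^h) x = (s^x)⁻¹ s^(h x)` is one of `≤ b²`
elements for each `s`. So there are at most `b^b · b² · b²` commutators; then Mathlib's Schur theorem
`Subgroup.card_commutator_le_of_finite_commutatorSet` and `cardCommutatorBound` (monotone? take the maximum over all numbers `≤ b^b b^4`). -/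
def S_BFC : Prop := ∀ b : ℕ, ∃ b' : ℕ, ∀ (H : Type) [Group H] [Finite H],
  (∀ h : H, (Subgroup.centralizer {h}).index ≤ b) → Nat.card (commutator H) ≤ b'

/-- JOB STR (theorem `t_STR : S_CP → S_NEU → S_BFC → S_STR`). PROOF. `(CP)`: `|G|² ≤ c² nI² ≤ c² #{commuting pairs}`; (NEU) gives `H₀`, whose
elements have at most `b` conjugates in `H₀` too; (BFC) `|H₀'| ≤ b'`; `H = H₀ ∩ C_G(H₀')` is normal (`H₀'` is normal in `G`), its index is
`≤ b · b'!` (the action of `G` on `H₀'` by conjugation), and `H' ≤ H₀'` is centralised by `H`. -/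
def S_STR : Prop := ∀ c : ℕ, ∃ b : ℕ, ∀ (G : Type) [Group G] [Finite G], Nat.card G ≤ c * nI G →
  ∃ H : Subgroup G, H.Normal ∧ H.index ≤ b ∧ Nat.card (commutator H) ≤ b ∧ commutator H ≤ Subgroup.center H

/-- Mean values of quadratic characters: `0`, and the means `w` of `n` roots of unity of order dividing `e` with `|w|² = 1 / n`. -/
def WW (e : ℕ) : Set ℂ := {0} ∪ {w : ℂ | ∃ n : ℕ, 0 < n ∧ ‖w‖ ^ 2 * n = 1 ∧
  ∃ f : Fin n → ℂ, (∀ i, f i ^ e = 1) ∧ (n : ℂ) * w = ∑ i, f i}

/-- JOB W. PROOF. For each `n` a finite set `F n` (finitely many `f`), of elements of absolute value `1 / √n`: the function `Σ n, F n → ℂ` tends to `0`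
along the cofinite filter, `Filter.Tendsto.isCompact_insert_range_of_cofinite`. -/
def S_W : Prop := ∀ e : ℕ, 0 < e → IsCompact (WW e) ∧ (WW e).Countable

/-- JOB QS. PROOF. `|∑ f|² = ∑_l f l ∑_k β k l` (`h = k l`), `= |B| ∑_{l ∈ R} f l` with the subgroup `R = {l | ∀ k, β k l = 1}` (`β (·) l` is a
homomorphism to `ℂ`, not `1`, sum `0`); `f` is a homomorphism on `R`: the sum over `R` is `0`, or `f = 1` on `R` and it is `|R|`. In the
second case `f` is constant on the cosets of `R`, `n = |B : R|`, `(∑ f) / |B|` is the mean over representatives of the cosets, and its square is `1/n`. -/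
def S_QS : Prop := ∀ (B : Type) [Group B] [Finite B] (e : ℕ) (f : B → ℂ) (β : B → B → ℂ), 0 < e → (∀ x, f x ^ e = 1) →
  (∀ k l, f (k * l) = f k * f l * β k l) → (∀ k k' l, β (k * k') l = β k l * β k' l) →
  (∀ k l l', β k (l * l') = β k l * β k l') → (∑ᶠ x : B, f x) / (Nat.card B : ℂ) ∈ WW e

/-- JOB CNT (theorem `t_CNT : S_W → S_QS → S_CNT`). PROOF. `B = {h | τ h * h ∈ H'}` is a subgroup containing `H'` (kernel of a homomorphism to `H / H'`; `H' =
commutator H`), and `q h = τ h * h`, `B → H'`, satisfies `q (h k) = q h q k [h, k]` (`τ k ≡ k⁻¹` mod `H'`, which is central). The number of `h ∈ B` with `q h = 1` is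
`|B| / |H'|` times the sum over the characters `χ` of the abelian group `H'` of the means of `χ (q h)`, each in `WW e`, `e = b!`, by
(QS) with `f = χ ∘ q`, `β k l = χ [k, l]` (bimultiplicative in class 2). So the proportion is `(1 / |H : B|) (1 / v) ∑_{i < v} re w_i`, `v = |H'| ≤ b`, `w_i ∈ WW e`: these numbers
form a countable compact set (continuous image of a product of countable compact sets). -/
def S_CNT : Prop := ∀ b : ℕ, ∃ S : Set ℝ, IsCompact S ∧ S.Countable ∧ ∀ (H : Type) [Group H] [Finite H],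
  Nat.card (commutator H) ≤ b → commutator H ≤ Subgroup.center H → ∀ τ : H →* H, (∀ h, τ (τ h) = h) →
  (Nat.card {h : H // τ h * h = 1} : ℝ) / Nat.card H ∈ S

/-- JOB J (theorem `t_J : S_STR → S_CNT → S_J`). PROOF. `nI G` is the sum over the `m = |G : H| ≤ b` cosets of `H` of the numbers of the `x` in the coset with
`x² = 1`; if there is one, `x₀`, they are the `x₀ h` with `τ h * h = 1`, `τ h = x₀ h x₀⁻¹` (`x₀⁻¹ = x₀`). So `nI G / |G| = (1/m) ∑_{i < m} s_i`, `s_i ∈ S ∪ {0}`. -/
def S_J : Prop := ∀ c : ℕ, ∃ S : Set ℝ, IsCompact S ∧ S.Countable ∧ ∀ (G : Type) [Group G] [Finite G],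
  Nat.card G ≤ c * nI G → (nI G : ℝ) / Nat.card G ∈ S

/-- the set of the proportions of involutions -/
def II : Set ℝ := {r | ∃ (G : Type) (_ : Group G), Finite G ∧ r = (Nat.card {x : G // orderOf x = 2} : ℝ) / Nat.card G}

/-- JOB FIN (theorem `t_FIN : S_J → S_FIN`). PROOF. `i(G) = j(G) - 1/|G|`. For `δ = 1/(c+1)` the elements `≥ δ` of `II` lie in the countable compact set
`{s - r | s ∈ S_(c+1), r ∈ {0} ∪ {1/n}}`; so `closure II ⊆ {0} ∪ ⋃_c (…)`. A countable set contains no interval, so the closed set `closure II` misses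
an open interval in `[0, 1/2]`. -/
def S_FIN : Prop := (closure II).Countable ∧ interior (closure II) = ∅ ∧
  ∃ a b : ℝ, 0 ≤ a ∧ a < b ∧ b ≤ 1 / 2 ∧ ∀ x ∈ II, ¬ (a < x ∧ x < b)

end Pool.Agent.J4H63.IV
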